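import Mathlib
import Pool.Agent.Helper29S.Pol

/-!
# Values of polynomials with a divisor near a power of a real number
-/

set_option autoImplicit false

namespace Pool.Agent.Seat74.BM

open Finset Filter Topology
open Pool.Agent.Helper29S (finite_of_card pol_bound)
open Pool.Agent.R485.AN (Thin)

/-- the divisors `d` of the values of `P` at the bad points of height at most `d ^ A` -/
def DivSet (Bd : ℤ → ℤ → Prop) (P : MvPolynomial (Fin 2) ℤ) (A : ℝ) : Set ℕ :=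
  {d | ∃ a b : ℤ, Bd a b ∧ MvPolynomial.eval ![a, b] P ≠ 0 ∧
    (d : ℤ) ∣ MvPolynomial.eval ![a, b] P ∧ |(a : ℝ)| ≤ (d : ℝ) ^ A ∧ |(b : ℝ)| ≤ (d : ℝ) ^ A}

lemma divSet_pos {Bd : ℤ → ℤ → Prop} {P : MvPolynomial (Fin 2) ℤ} {A : ℝ} {d : ℕ}
    (h : d ∈ DivSet Bd P A) : 0 < d := by
  obtain ⟨a, b, -, h1, h2, -⟩ := h
  rcases Nat.eq_zero_or_pos d with h0 | h0
  · rw [h0] at h2
    exact absurd (zero_dvd_iff.1 (by exact_mod_cast h2)) h1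
  · exact h0

lemma divSet_mono {Bd Bd' : ℤ → ℤ → Prop} (h : ∀ a b, Bd a b → Bd' a b)
    {P : MvPolynomial (Fin 2) ℤ} {A A' : ℝ} (hA : A ≤ A') {d : ℕ} (hd : d ∈ DivSet Bd P A) :
    d ∈ DivSet Bd' P A' := by
  have h0 := divSet_pos hd
  have h1 : (1 : ℝ) ≤ d := by exact_mod_cast h0
  have h2 := Real.rpow_le_rpow_of_exponent_le h1 hA
  obtain ⟨a, b, g1, g2, g3, g4, g5⟩ := hd
  exact ⟨a, b, h a b g1, g2, g3, g4.trans h2, g5.trans h2⟩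

theorem count_divSet {Bd : ℤ → ℤ → Prop} {σ : ℝ}
    (hcount : ∀ ε : ℝ, 0 < ε → ∃ C : ℝ, 0 < C ∧ ∀ Y : ℝ, 1 ≤ Y → ∀ s : Finset (ℤ × ℤ),
      (∀ x ∈ s, Bd x.1 x.2 ∧ |(x.1 : ℝ)| ≤ Y ∧ |(x.2 : ℝ)| ≤ Y) → (s.card : ℝ) ≤ C * Y ^ (σ + ε))
    (P : MvPolynomial (Fin 2) ℤ) {A : ℝ} (hA : 0 < A) (ε : ℝ) (hε : 0 < ε) :
    ∃ C : ℝ, 0 ≤ C ∧ ∀ X : ℝ, 1 ≤ X →
      (({d : ℕ | d ∈ DivSet Bd P A ∧ (d : ℝ) ≤ X}.ncard : ℕ) : ℝ) ≤ C * X ^ (A * σ + ε) := by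
  classical
  obtain ⟨C1, k, hC1, hpol⟩ := pol_bound P
  set e : ℝ := ε / (A * (k + 1)) with he
  have hk0 : (0 : ℝ) < (k : ℝ) + 1 := by positivity
  have he0 : 0 < e := by positivity
  obtain ⟨C2, hC2, hdiv⟩ := Pool.Agent.H510R2.divisor_bound e he0
  obtain ⟨C3, hC3, hmin⟩ := hcount e he0
  refine ⟨C2 * C1 ^ e * C3, by positivity, fun X hX => ?_⟩
  have hX0 : 0 < X := by linarith
  set Y : ℝ := X ^ A with hY
  have hY1 : 1 ≤ Y := Real.one_le_rpow hX hA.le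
  have hY0 : 0 < Y := by linarith
  set S : Set (ℤ × ℤ) := {x | Bd x.1 x.2 ∧ |(x.1 : ℝ)| ≤ Y ∧ |(x.2 : ℝ)| ≤ Y} with hS
  obtain ⟨hfin, hcard⟩ := finite_of_card (S := S) (B := C3 * Y ^ (σ + e)) (by
    intro F hF
    exact hmin Y hY1 F fun x hx => hF hx)
  set T : Finset ℕ := hfin.toFinset.biUnion
    (fun x => (MvPolynomial.eval ![x.1, x.2] P).natAbs.divisors) with hT
  have hsub : {d : ℕ | d ∈ DivSet Bd P A ∧ (d : ℝ) ≤ X} ⊆ (T : Set ℕ) := by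
    rintro d ⟨⟨a, b, h1, h2, h3, h4, h5⟩, h6⟩
    have hdY : (d : ℝ) ^ A ≤ Y := Real.rpow_le_rpow (Nat.cast_nonneg d) h6 hA.le
    rw [Finset.mem_coe, hT, Finset.mem_biUnion]
    refine ⟨(a, b), ?_, ?_⟩
    · rw [Set.Finite.mem_toFinset]
      exact ⟨h1, h4.trans hdY, h5.trans hdY⟩
    · rw [Nat.mem_divisors]
      exact ⟨Int.natCast_dvd.1 h3, Int.natAbs_ne_zero.2 h2⟩
  have h1 := Set.ncard_le_ncard hsub (Finset.finite_toSet T)
  rw [Set.ncard_coe_finset] at h1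
  have h2 : (T.card : ℝ) ≤ ∑ x ∈ hfin.toFinset,
      (((MvPolynomial.eval ![x.1, x.2] P).natAbs.divisors.card : ℕ) : ℝ) := by
    exact_mod_cast Finset.card_biUnion_le
  have h3 : ∀ x ∈ hfin.toFinset, (((MvPolynomial.eval ![x.1, x.2] P).natAbs.divisors.card : ℕ) : ℝ)
      ≤ C2 * (C1 * Y ^ k) ^ e := by
    intro x hx
    rw [Set.Finite.mem_toFinset] at hx
    obtain ⟨-, g1, g2⟩ := hx
    have g3 := hpol x.1 x.2 Y hY1 g1 g2
    by_cases h0 : MvPolynomial.eval ![x.1, x.2] P = 0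
    · rw [h0]
      simp only [Int.natAbs_zero, Nat.divisors_zero, Finset.card_empty, Nat.cast_zero]
      positivity
    · have g4 := hdiv (MvPolynomial.eval ![x.1, x.2] P).natAbs (Int.natAbs_pos.2 h0)
      refine g4.trans (mul_le_mul_of_nonneg_left ?_ hC2.le)
      refine Real.rpow_le_rpow (Nat.cast_nonneg _) ?_ he0.le
      rw [Nat.cast_natAbs]
      push_cast
      exact g3
  have h4 : ((hfin.toFinset.card : ℕ) : ℝ) ≤ C3 * Y ^ (σ + e) := by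
    rwa [Set.ncard_eq_toFinset_card _ hfin] at hcard
  calc (({d : ℕ | d ∈ DivSet Bd P A ∧ (d : ℝ) ≤ X}.ncard : ℕ) : ℝ) ≤ (T.card : ℝ) := by
        exact_mod_cast h1
    _ ≤ ∑ x ∈ hfin.toFinset,
      (((MvPolynomial.eval ![x.1, x.2] P).natAbs.divisors.card : ℕ) : ℝ) := h2
    _ ≤ ∑ _x ∈ hfin.toFinset, C2 * (C1 * Y ^ k) ^ e := Finset.sum_le_sum h3
    _ = (hfin.toFinset.card : ℝ) * (C2 * (C1 * Y ^ k) ^ e) := by
        rw [Finset.sum_const, nsmul_eq_mul]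
    _ ≤ C3 * Y ^ (σ + e) * (C2 * (C1 * Y ^ k) ^ e) := by gcongr
    _ = C2 * C1 ^ e * C3 * X ^ (A * σ + ε) := by
        rw [Real.mul_rpow (by linarith) (by positivity), ← Real.rpow_natCast Y k,
          ← Real.rpow_mul hY0.le, hY, ← Real.rpow_mul hX0.le, ← Real.rpow_mul hX0.le]
        have e1 : A * σ + ε = A * (σ + e) + A * ((k : ℝ) * e) := by
          rw [he]
          field_simp
          ring
        rw [e1, Real.rpow_add hX0]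
        ring

/-- one exponent -/
theorem near_one {v : ℕ → ℝ} (hv : Thin v) {Bd : ℤ → ℤ → Prop} {σ : ℝ} (hσ : 0 ≤ σ)
    (hcount : ∀ ε : ℝ, 0 < ε → ∃ C : ℝ, 0 < C ∧ ∀ Y : ℝ, 1 ≤ Y → ∀ s : Finset (ℤ × ℤ),
      (∀ x ∈ s, Bd x.1 x.2 ∧ |(x.1 : ℝ)| ≤ Y ∧ |(x.2 : ℝ)| ≤ Y) → (s.card : ℝ) ≤ C * Y ^ (σ + ε))
    (P : MvPolynomial (Fin 2) ℤ) {A θ : ℝ} (hA : 0 < A) (hθ0 : 0 ≤ θ) (hθ1 : θ < 1) :
    ∃ E : Set ℝ, dimH E ≤ ENNReal.ofReal (A * σ / (1 - θ)) ∧ ∀ α : ℝ, 1 < α → α ∉ E →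
      ∃ n₀ : ℕ, ∀ n : ℕ, n₀ ≤ n → ∀ d : ℕ, |(d : ℝ) - α ^ (v n)| ≤ (α ^ (v n)) ^ θ →
        d ∉ DivSet Bd P A :=
  Pool.Agent.R485.AN.dim_pow (DivSet Bd P A) (fun _ hd => divSet_pos hd) (s := A * σ)
    (by positivity) hθ0 hθ1 (fun ε hε => count_divSet hcount P hA ε hε) hv

/-- **all exponents** -/
theorem near_all {v : ℕ → ℝ} (hv : Thin v) (Bd : ℝ → ℤ → ℤ → Prop)
    (hmono : ∀ {κ κ' : ℝ} {a b : ℤ}, κ ≤ κ' → Bd κ' a b → Bd κ a b)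
    (hsing : ∀ Y : ℝ, ∃ κ : ℝ, ∀ a b : ℤ, |(a : ℝ)| ≤ Y → |(b : ℝ)| ≤ Y → ¬ Bd κ a b)
    (hcount : ∀ κ : ℝ, 0 < κ → ∀ ε : ℝ, 0 < ε → ∃ C : ℝ, 0 < C ∧ ∀ Y : ℝ, 1 ≤ Y →
      ∀ s : Finset (ℤ × ℤ), (∀ x ∈ s, Bd κ x.1 x.2 ∧ |(x.1 : ℝ)| ≤ Y ∧ |(x.2 : ℝ)| ≤ Y) →
        (s.card : ℝ) ≤ C * Y ^ (12 / κ + ε)) :
    ∃ E : Set ℝ, dimH E = 0 ∧ ∀ α : ℝ, 1 < α → α ∉ E → ∀ (P : MvPolynomial (Fin 2) ℤ) (A θ : ℝ),
      θ < 1 → ∃ κ : ℝ, 0 < κ ∧ ∀ n d : ℕ, |(d : ℝ) - α ^ (v n)| ≤ (α ^ (v n)) ^ θ →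
        d ∉ DivSet (Bd κ) P A := by
  have : Countable (MvPolynomial (Fin 2) ℤ) := Pool.Agent.Helper29S.countable_pol
  have hl : ∀ l : ℕ, (0 : ℝ) < 1 / ((l : ℝ) + 1) := fun l => by positivity
  have h : ∀ (P : MvPolynomial (Fin 2) ℤ) (k l j : ℕ), ∃ E : Set ℝ,
      dimH E ≤ ENNReal.ofReal (((k : ℝ) + 1) * (12 / ((j : ℝ) + 1)) /
        (1 - (1 - 1 / ((l : ℝ) + 1)))) ∧
      ∀ α : ℝ, 1 < α → α ∉ E → ∃ n₀ : ℕ, ∀ n : ℕ, n₀ ≤ n → ∀ d : ℕ,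
        |(d : ℝ) - α ^ (v n)| ≤ (α ^ (v n)) ^ (1 - 1 / ((l : ℝ) + 1)) →
          d ∉ DivSet (Bd ((j : ℝ) + 1)) P ((k : ℝ) + 1) := fun P k l j =>
    near_one hv (by positivity) (hcount ((j : ℝ) + 1) (by positivity)) P (by positivity)
      (by
        have : 1 / ((l : ℝ) + 1) ≤ 1 := by
          rw [div_le_one (by positivity)]
          have : (0 : ℝ) ≤ l := Nat.cast_nonneg l
          linarith
        linarith) (by linarith [hl l])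
  choose E hdim hgood using h
  refine ⟨⋃ P, ⋃ k, ⋃ l, ⋂ j, E P k l j, ?_, ?_⟩
  · refine le_antisymm ?_ bot_le
    rw [dimH_iUnion]
    refine iSup_le fun P => ?_
    rw [dimH_iUnion]
    refine iSup_le fun k => ?_
    rw [dimH_iUnion]
    refine iSup_le fun l => ?_
    have hlim : Tendsto (fun j : ℕ => ENNReal.ofReal (((k : ℝ) + 1) * (12 / ((j : ℝ) + 1)) /
        (1 - (1 - 1 / ((l : ℝ) + 1))))) atTop (𝓝 0) := by
      rw [← ENNReal.ofReal_zero]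
      apply ENNReal.tendsto_ofReal
      have h1 : Tendsto (fun j : ℕ => 12 / ((j : ℝ) + 1)) atTop (𝓝 0) := by
        apply Filter.Tendsto.const_div_atTop
        exact tendsto_atTop_add_const_right _ _ tendsto_natCast_atTop_atTop
      have h5 : Tendsto (fun j : ℕ => ((k : ℝ) + 1) * (12 / ((j : ℝ) + 1)) /
          (1 - (1 - 1 / ((l : ℝ) + 1)))) atTop
          (𝓝 (((k : ℝ) + 1) * 0 / (1 - (1 - 1 / ((l : ℝ) + 1))))) :=
        (h1.const_mul _).div_const _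
      rwa [mul_zero, zero_div] at h5
    exact ge_of_tendsto' hlim fun j => (dimH_mono (Set.iInter_subset _ j)).trans (hdim P k l j)
  · intro α hα hαE P A θ hθ
    obtain ⟨k, hk⟩ := exists_nat_ge A
    obtain ⟨l, hl'⟩ := exists_nat_ge (1 / (1 - θ))
    have h1 : α ∉ ⋂ j, E P k l j := fun hcon =>
      hαE (Set.mem_iUnion.2 ⟨P, Set.mem_iUnion.2 ⟨k, Set.mem_iUnion.2 ⟨l, hcon⟩⟩⟩)
    rw [Set.mem_iInter] at h1
    push Not at h1
    obtain ⟨j, hj⟩ := h1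
    obtain ⟨n₀, hn₀⟩ := hgood P k l j α hα hj
    have hα0 : 0 < α := by linarith
    have hθl : θ ≤ 1 - 1 / ((l : ℝ) + 1) := by
      have e1 : 1 / ((l : ℝ) + 1) ≤ 1 - θ := by
        rw [div_le_iff₀ (by positivity)]
        rw [div_le_iff₀ (by linarith)] at hl'
        nlinarith
      linarith
    have hvt : Tendsto v atTop atTop := Pool.Agent.R485.AN.Thin.tendsto hv
    obtain ⟨n₁, hn₁⟩ := eventually_atTop.1 (hvt.eventually_ge_atTop 0)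
    obtain ⟨B, hB⟩ : ∃ B : ℕ, ∀ n < max n₀ n₁, ∀ d : ℕ,
        |(d : ℝ) - α ^ (v n)| ≤ (α ^ (v n)) ^ θ → d ≤ B := by
      refine ⟨(Finset.range (max n₀ n₁)).sup fun n => ⌈α ^ (v n) + (α ^ (v n)) ^ θ⌉₊,
        fun n hn d hd => ?_⟩
      have h2 : (d : ℝ) ≤ α ^ (v n) + (α ^ (v n)) ^ θ := by
        have := (abs_le.mp hd).2
        linarith
      have h3 : d ≤ ⌈α ^ (v n) + (α ^ (v n)) ^ θ⌉₊ := by exact_mod_cast h2.trans (Nat.le_ceil _)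
      exact h3.trans (Finset.le_sup (f := fun n => ⌈α ^ (v n) + (α ^ (v n)) ^ θ⌉₊)
        (Finset.mem_range.mpr hn))
    -- the finitely many small divisors
    obtain ⟨κ', hκ'⟩ := hsing (((B : ℝ) + 1) ^ |A|)
    have hsmall : ∀ d : ℕ, d ≤ B → d ∉ DivSet (Bd κ') P A := by
      intro d hd hcon
      have hd1 : (1 : ℝ) ≤ d := by exact_mod_cast divSet_pos hcon
      obtain ⟨a, b, g1, -, -, g4, g5⟩ := hcon
      have hdY : (d : ℝ) ^ A ≤ ((B : ℝ) + 1) ^ |A| := by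
        have h5 : (d : ℝ) ≤ (B : ℝ) + 1 := by
          have : (d : ℝ) ≤ B := by exact_mod_cast hd
          linarith
        calc (d : ℝ) ^ A ≤ (d : ℝ) ^ |A| := Real.rpow_le_rpow_of_exponent_le hd1 (le_abs_self A)
          _ ≤ _ := Real.rpow_le_rpow (by linarith) h5 (abs_nonneg A)
      exact hκ' a b (g4.trans hdY) (g5.trans hdY) g1
    have hj0 : (0 : ℝ) < (j : ℝ) + 1 := by positivity
    refine ⟨max ((j : ℝ) + 1) κ', lt_of_lt_of_le hj0 (le_max_left _ _), fun n d hd hcon => ?_⟩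
    rcases Nat.lt_or_ge n (max n₀ n₁) with hn | hn
    · exact hsmall d (hB n hn d hd)
        (divSet_mono (fun a b h => hmono (le_max_right _ _) h) le_rfl hcon)
    · have hvn : 0 ≤ v n := hn₁ n ((le_max_right _ _).trans hn)
      have h5 : 1 ≤ α ^ (v n) := Real.one_le_rpow hα.le hvn
      have h6 : (α ^ (v n)) ^ θ ≤ (α ^ (v n)) ^ (1 - 1 / ((l : ℝ) + 1)) :=
        Real.rpow_le_rpow_of_exponent_le h5 hθl
      exact hn₀ n ((le_max_left _ _).trans hn) d (hd.trans h6)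
        (divSet_mono (fun a b h => hmono (le_max_left _ _) h) (by linarith) hcon)

theorem thin_pow (δ : ℝ) (hδ : 0 < δ) : Thin (fun n : ℕ => ((n : ℝ) + 1) ^ δ) := by
  intro t ht
  have h1 := isLittleO_exp_neg_mul_rpow_atTop ht (-(2 / δ))
  have h2 : Tendsto (fun n : ℕ => ((n : ℝ) + 1) ^ δ) atTop atTop :=
    (tendsto_rpow_atTop hδ).comp
      (tendsto_atTop_add_const_right _ _ tendsto_natCast_atTop_atTop)
  have h3 := (h1.comp_tendsto h2).isBigO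
  refine summable_of_isBigO_nat (g := fun n : ℕ => ((n : ℝ) + 1) ^ (-2 : ℝ)) ?_ ?_
  · have h4 : Summable (fun n : ℕ => ((n : ℝ)) ^ (-2 : ℝ)) := by
      rw [Real.summable_nat_rpow]
      norm_num
    have h5 := (summable_nat_add_iff 1).2 h4
    refine h5.congr fun n => ?_
    push_cast
    rfl
  · refine (h3.congr_left fun n => ?_).congr_right fun n => ?_
    · simp only [Function.comp_apply]
      congr 1
      ring
    · simp only [Function.comp_apply]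
      have : (0 : ℝ) ≤ (n : ℝ) + 1 := by positivity
      rw [← Real.rpow_mul this]
      congr 1
      field_simp

theorem thin_id : Thin (fun n : ℕ => (n : ℝ)) := by
  intro t ht
  have h1 : Summable (fun n : ℕ => (Real.exp (-t)) ^ n) :=
    summable_geometric_of_lt_one (Real.exp_pos _).le (by rw [Real.exp_lt_one_iff]; linarith)
  refine h1.congr fun n => ?_
  rw [← Real.exp_nat_mul]
  congr 1
  ring

end Pool.Agent.Seat74.BM
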