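import Mathlib
import Pool.Agent.Helper29S.AllCnt

/-!
# The number of the invariants which are large in terms of the conductor of one of their curves
-/

set_option autoImplicit false

namespace Pool.Agent.Seat74.BM

open Finset Pool.Agent.W4.CF
open Pool.Agent.H925R.Szpiro (D IsMin condS)
open Pool.Agent.Helper29S

/-- the height of the invariant `j` is more than the `m`-th power of the conductor of one of the curves
of invariant `j` -/
def Large (m : ℝ) (j : ℚ) : Prop := ∃ a b : ℤ, IsMin a b ∧ jI a b = j ∧ Mx a b ^ m < (ht j : ℝ)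

/-- **the number of the large invariants** -/
theorem count_large (m ε : ℝ) (hm : 0 < m) (hε : 0 < ε) : ∃ C : ℝ, 0 < C ∧ ∀ H : ℝ, 1 ≤ H →
    ∀ s : Finset ℚ, (∀ j ∈ s, (ht j : ℝ) ≤ H ∧ Large m j) →
    (s.card : ℝ) ≤ C * H ^ (7 / (2 * m) + ε) := by
  classical
  set e : ℝ := ε / (4 / m + 1) with he
  have he0 : 0 < e := by positivity
  obtain ⟨C0, hC0, h0⟩ := count_all e he0
  refine ⟨C0 * 559872 ^ e, by positivity, fun H hH s hs => ?_⟩
  have hH0 : 0 < H := by linarith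
  set R : ℝ := H ^ (1 / m) with hR
  have hR1 : 1 ≤ R := Real.one_le_rpow hH (by positivity)
  have hR0 : 0 < R := by linarith
  set Y : ℝ := 559872 * R ^ 4 * H with hY
  have hR4 : 1 ≤ R ^ 4 := one_le_pow₀ hR1
  have hY1 : 1 ≤ Y := by
    rw [hY]
    have : 1 ≤ R ^ 4 * H := one_le_mul_of_one_le_of_one_le hR4 hH
    nlinarith
  have hex : ∀ j ∈ s, ∃ y : ℤ × ℤ, Red y.1 y.2 ∧ Dsc y.1 y.2 ≠ 0 ∧ jI y.1 y.2 = j ∧
      |(y.1 : ℝ)| ≤ Y ∧ |(y.2 : ℝ)| ≤ Y ∧ (radp 6 (Dsc y.1 y.2).natAbs : ℝ) ≤ R := by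
    intro j hj
    obtain ⟨hjH, a, b, hmin, hab, hbad⟩ := hs j hj
    obtain ⟨d, a', b', -, -, -, g4, g5, g6, g7, g8, g9, g10⟩ := main_ineq hmin
    rw [hab] at g6 g9 g10
    have hM := two_le_Mx a b
    have hM0 : 0 < Mx a b := by linarith
    have hden : ((j.den : ℕ) : ℝ) ≤ H := by
      refine le_trans ?_ hjH
      exact_mod_cast le_max_right j.num.natAbs j.den
    have hnum : ((j.num.natAbs : ℕ) : ℝ) ≤ H := by
      refine le_trans ?_ hjH
      exact_mod_cast le_max_left j.num.natAbs j.den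
    have hMR : Mx a b ≤ R := by
      have h2 : Mx a b ^ m ≤ H := hbad.le.trans hjH
      calc Mx a b = (Mx a b ^ m) ^ (1 / m) := by
            rw [← Real.rpow_mul hM0.le, mul_one_div_cancel hm.ne', Real.rpow_one]
        _ ≤ R := Real.rpow_le_rpow (by positivity) h2 (by positivity)
    have hM4 : 559872 * Mx a b ^ 4 ≤ 559872 * R ^ 4 := by gcongr
    have hDY : |((Dsc a' b' : ℤ) : ℝ)| ≤ Y := by
      refine g9.trans ?_
      rw [hY]
      gcongr
    have haY : 6912 * |(a' : ℝ)| ^ 3 ≤ Y := by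
      refine g10.trans ?_
      rw [hY]
      gcongr
    have hle3 : ∀ z : ℤ, |(z : ℝ)| ≤ |(z : ℝ)| ^ 3 := by
      intro z
      by_cases hz : z = 0
      · rw [hz]; simp
      · have h1 : (1 : ℝ) ≤ |(z : ℝ)| := by exact_mod_cast Int.one_le_abs hz
        exact le_self_pow₀ h1 (by norm_num)
    have hle2 : ∀ z : ℤ, |(z : ℝ)| ≤ |(z : ℝ)| ^ 2 := by
      intro z
      by_cases hz : z = 0
      · rw [hz]; simp
      · have h1 : (1 : ℝ) ≤ |(z : ℝ)| := by exact_mod_cast Int.one_le_abs hz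
        exact le_self_pow₀ h1 (by norm_num)
    refine ⟨(a', b'), g4, g5, g6, ?_, ?_, g7.trans hMR⟩
    · have h1 := hle3 a'
      have h2 : (0 : ℝ) ≤ |(a' : ℝ)| ^ 3 := by positivity
      simp only
      linarith
    · have h1 := hle2 b'
      have h2 : 27 * |(b' : ℝ)| ^ 2 ≤ 4 * |(a' : ℝ)| ^ 3 + |((Dsc a' b' : ℤ) : ℝ)| := by
        have e1 : 27 * (b' : ℝ) ^ 2 = 4 * (a' : ℝ) ^ 3 - ((Dsc a' b' : ℤ) : ℝ) := by
          unfold Dsc; push_cast; ring
        rw [sq_abs, e1]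
        have e2 : 4 * (a' : ℝ) ^ 3 ≤ 4 * |(a' : ℝ)| ^ 3 := by
          have : (a' : ℝ) ^ 3 ≤ |(a' : ℝ)| ^ 3 := by
            rw [← abs_pow]; exact le_abs_self _
          linarith
        have e3 := neg_abs_le ((Dsc a' b' : ℤ) : ℝ)
        linarith
      have h3 : (0 : ℝ) ≤ |(a' : ℝ)| ^ 3 := by positivity
      simp only
      linarith
  choose! f hf using hex
  have hinj : Set.InjOn f s := by
    intro x hx y hy hxy
    have h1 := (hf x hx).2.2.1
    have h2 := (hf y hy).2.2.1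
    rw [hxy] at h1
    exact h1.symm.trans h2
  have h1 := h0 R Y hR1 hY1 (s.image f) (by
    intro y hy
    rw [Finset.mem_image] at hy
    obtain ⟨x, hx, rfl⟩ := hy
    obtain ⟨g1, g2, -, g4, g5, g6⟩ := hf x hx
    exact ⟨g1, g2, g4, g5, g6⟩)
  rw [Finset.card_image_of_injOn hinj] at h1
  refine h1.trans (le_of_eq ?_)
  have e1 : R ^ ((7 : ℝ) / 2) = H ^ (7 / (2 * m)) := by
    rw [hR, ← Real.rpow_mul hH0.le]
    congr 1
    field_simp
  have e2 : Y ^ e = 559872 ^ e * H ^ ε := by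
    have e3 : Y = 559872 * (H ^ (4 / m + 1)) := by
      rw [hY, hR, Real.rpow_add hH0, Real.rpow_one, ← Real.rpow_natCast
        (H ^ (1 / m)) 4, ← Real.rpow_mul hH0.le]
      have e4 : 1 / m * ((4 : ℕ) : ℝ) = 4 / m := by push_cast; ring
      rw [e4]
      ring
    rw [e3, Real.mul_rpow (by positivity) (by positivity), ← Real.rpow_mul hH0.le]
    congr 2
    rw [he]
    field_simp
  rw [e1, e2, Real.rpow_add hH0]
  ring

lemma Large.mono {m m' : ℝ} {j : ℚ} (h : m ≤ m') (hb : Large m' j) : Large m j := by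
  obtain ⟨a, b, h1, h2, h3⟩ := hb
  refine ⟨a, b, h1, h2, lt_of_le_of_lt ?_ h3⟩
  exact Real.rpow_le_rpow_of_exponent_le (by linarith [two_le_Mx a b]) h

/-- every given invariant is small for some exponent -/
theorem large_single (j : ℚ) : ∃ m : ℝ, 0 ≤ m ∧ ¬ Large m j := by
  obtain ⟨n, hn⟩ := pow_unbounded_of_one_lt (ht j : ℝ) (one_lt_two : (1 : ℝ) < 2)
  refine ⟨(n : ℝ), by positivity, ?_⟩
  rintro ⟨a, b, -, -, h⟩
  have hM := two_le_Mx a b
  rw [Real.rpow_natCast] at h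
  have h1 : (2 : ℝ) ^ n ≤ Mx a b ^ n := pow_le_pow_left₀ (by norm_num) hM n
  linarith

/-- the discriminant and the first coefficient in terms of the invariant -/
theorem coeff_le {a b : ℤ} (hmin : IsMin a b) :
    |((Dsc a b : ℤ) : ℝ)| ≤ 46656 * 559872 * Mx a b ^ 7 * (ht (jI a b) : ℝ) ∧
      6912 * |(a : ℝ)| ^ 3 ≤ 46656 * 559872 * Mx a b ^ 7 * (ht (jI a b) : ℝ) := by
  obtain ⟨d, a', b', -, -, -, -, g5, -, -, g8, g9, -⟩ := main_ineq hmin
  have hM := two_le_Mx a b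
  have hM0 : 0 < Mx a b := by linarith
  have hden0 : (0 : ℝ) < ((jI a b).den : ℝ) := by exact_mod_cast (jI a b).den_pos
  have hD : |((Dsc a b : ℤ) : ℝ)| ≤ 46656 * 559872 * Mx a b ^ 7 * ((jI a b).den : ℝ) := by
    calc |((Dsc a b : ℤ) : ℝ)| ≤ 46656 * Mx a b ^ 3 * |((Dsc a' b' : ℤ) : ℝ)| := g8
      _ ≤ 46656 * Mx a b ^ 3 * (559872 * Mx a b ^ 4 * (jI a b).den) := by gcongr
      _ = 46656 * 559872 * Mx a b ^ 7 * ((jI a b).den : ℝ) := by ring
  have hdle : ((jI a b).den : ℝ) ≤ (ht (jI a b) : ℝ) := by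
    exact_mod_cast le_max_right (jI a b).num.natAbs (jI a b).den
  have hnle : ((jI a b).num.natAbs : ℝ) ≤ (ht (jI a b) : ℝ) := by
    exact_mod_cast le_max_left (jI a b).num.natAbs (jI a b).den
  refine ⟨hD.trans (by gcongr), ?_⟩
  have hD0 : (Dsc a b : ℚ) ≠ 0 := by
    have : Dsc a b ≠ 0 := hmin.1
    exact_mod_cast this
  have hrel : 6912 * |(a : ℝ)| ^ 3 * ((jI a b).den : ℝ) =
      ((jI a b).num.natAbs : ℝ) * |((Dsc a b : ℤ) : ℝ)| := by
    have h1 : 6912 * (a : ℚ) ^ 3 * ((jI a b).den : ℚ) = ((jI a b).num : ℚ) * (Dsc a b : ℚ) := by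
      have h2 : (jI a b) * (Dsc a b : ℚ) = 6912 * (a : ℚ) ^ 3 := by
        unfold jI
        field_simp
      have h3 : (jI a b) * ((jI a b).den : ℚ) = ((jI a b).num : ℚ) := Rat.mul_den_eq_num _
      rw [← h2, ← h3]
      ring
    have h2 : 6912 * (a : ℤ) ^ 3 * ((jI a b).den : ℤ) = (jI a b).num * Dsc a b := by
      exact_mod_cast h1
    have h3 := congrArg (fun z : ℤ => |(z : ℝ)|) h2
    simp only [Int.cast_mul, Int.cast_pow, abs_mul, abs_pow, Int.cast_natCast, Nat.abs_cast] at h3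
    rw [Nat.cast_natAbs, Int.cast_abs, ← h3]
    norm_num
  have h4 : 6912 * |(a : ℝ)| ^ 3 * ((jI a b).den : ℝ) ≤
      46656 * 559872 * Mx a b ^ 7 * ((jI a b).num.natAbs : ℝ) * ((jI a b).den : ℝ) := by
    rw [hrel]
    calc ((jI a b).num.natAbs : ℝ) * |((Dsc a b : ℤ) : ℝ)| ≤
        ((jI a b).num.natAbs : ℝ) * (46656 * 559872 * Mx a b ^ 7 * ((jI a b).den : ℝ)) :=
          mul_le_mul_of_nonneg_left hD (Nat.cast_nonneg _)
      _ = _ := by ring
  have h5 := le_of_mul_le_mul_right h4 hden0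
  exact h5.trans (by gcongr)

end Pool.Agent.Seat74.BM
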