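import Mathlib
import Pool.Agent.Seat74.BM.Cnt
import Pool.Agent.N365.SM.E

/-!
# The Shimura map of a newform attached to a curve whose invariant has a height bounded by a power of
# the conductor
-/

set_option autoImplicit false

namespace Pool.Agent.Seat74.BM

open Finset Pool.Agent.W4.CF
open Pool.Agent.H925R.Szpiro (D IsMin condS)
open Pool.Agent.Helper29S
open Pool.Agent.TH133.SH (IsNewform IsBasis CoordBound Hval)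
open Pool.Agent.H39R3 (GMin condW condW_pos cond_le)
open Pool.Agent.N365.SM (Att)

/-- the height of the invariants `c₄`, `c₆` of a global minimal equation -/
theorem hgt_le {W : WeierstrassCurve ℤ} (hW : GMin W) :
    ∃ a b : ℤ, IsMin a b ∧ jI a b = (W.c₄ : ℚ) ^ 3 / (W.Δ : ℚ) ∧ condS a b ≤ condW W ∧
      |(W.c₄ : ℝ)| ≤ 48 * |(a : ℝ)| ∧ |(W.c₆ : ℝ)| ≤ 864 * |(b : ℝ)| ∧
      |(a : ℝ)| ≤ 27 * |(W.c₄ : ℝ)| ∧ |(b : ℝ)| ≤ 54 * |(W.c₆ : ℝ)| := by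
  obtain ⟨a, b, r, s, hmin, -, hs0, hsr, hr6, e4, e6, e12, hrs⟩ :=
    Pool.Agent.W270.TM.intsR W hW
  have hr0 : 0 < r := lt_of_lt_of_le hs0 hsr
  have hD0 : D a b ≠ 0 := hmin.1
  have hΔ : W.Δ ≠ 0 := hW.1
  have hsR : (0 : ℝ) < s := by exact_mod_cast hs0
  have hrR : (0 : ℝ) < r := by exact_mod_cast hr0
  have hsrR : (s : ℝ) ≤ r := by exact_mod_cast hsr
  have hrsR : (r : ℝ) ≤ 6 * s := by exact_mod_cast hrs
  have f4 : 48 * |(a : ℝ)| * (s : ℝ) ^ 4 = (r : ℝ) ^ 4 * |(W.c₄ : ℝ)| := by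
    have h2 := congrArg (fun z : ℤ => |(z : ℝ)|) e4
    simp only [Int.cast_mul, Int.cast_pow, abs_mul, abs_pow, Int.cast_natCast, Nat.abs_cast] at h2
    rw [← h2]
    norm_num
  have f6 : 864 * |(b : ℝ)| * (s : ℝ) ^ 6 = (r : ℝ) ^ 6 * |(W.c₆ : ℝ)| := by
    have h2 := congrArg (fun z : ℤ => |(z : ℝ)|) e6
    simp only [Int.cast_mul, Int.cast_pow, abs_mul, abs_pow, Int.cast_natCast, Nat.abs_cast] at h2
    rw [← h2]
    norm_num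
  refine ⟨a, b, hmin, ?_, cond_le W a b r s hr6 e4 e12 hΔ, ?_, ?_, ?_, ?_⟩
  · have hD0Q : (Dsc a b : ℚ) ≠ 0 := by
      have : Dsc a b ≠ 0 := hD0
      exact_mod_cast this
    have hΔQ : (W.Δ : ℚ) ≠ 0 := by exact_mod_cast hΔ
    have hsQ : (s : ℚ) ≠ 0 := by exact_mod_cast hs0.ne'
    have hrQ : (r : ℚ) ≠ 0 := by exact_mod_cast hr0.ne'
    unfold jI
    rw [div_eq_div_iff hD0Q hΔQ]
    have g4 : 48 * (a : ℚ) * (s : ℚ) ^ 4 = (r : ℚ) ^ 4 * (W.c₄ : ℚ) := by exact_mod_cast e4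
    have g12 : (16 * (Dsc a b : ℚ)) * (s : ℚ) ^ 12 = (r : ℚ) ^ 12 * (W.Δ : ℚ) := by
      exact_mod_cast e12
    have h1 : (16 * (s : ℚ) ^ 12 * (r : ℚ) ^ 12) * (6912 * (a : ℚ) ^ 3 * (W.Δ : ℚ)) =
        (16 * (s : ℚ) ^ 12 * (r : ℚ) ^ 12) * ((W.c₄ : ℚ) ^ 3 * (Dsc a b : ℚ)) := by
      calc (16 * (s : ℚ) ^ 12 * (r : ℚ) ^ 12) * (6912 * (a : ℚ) ^ 3 * (W.Δ : ℚ))
          = (48 * (a : ℚ) * (s : ℚ) ^ 4) ^ 3 * ((r : ℚ) ^ 12 * (W.Δ : ℚ)) := by ring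
        _ = ((r : ℚ) ^ 4 * (W.c₄ : ℚ)) ^ 3 * ((16 * (Dsc a b : ℚ)) * (s : ℚ) ^ 12) := by
            rw [g4, g12]
        _ = _ := by ring
    exact mul_left_cancel₀ (by positivity) h1
  · have h3 : (s : ℝ) ^ 4 ≤ (r : ℝ) ^ 4 := pow_le_pow_left₀ hsR.le hsrR 4
    have hr4 : (0 : ℝ) < (r : ℝ) ^ 4 := by positivity
    have h4 : (r : ℝ) ^ 4 * |(W.c₄ : ℝ)| ≤ (r : ℝ) ^ 4 * (48 * |(a : ℝ)|) := by
      rw [← f4]
      have := mul_le_mul_of_nonneg_left h3 (by positivity : 0 ≤ 48 * |(a : ℝ)|)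
      linarith
    exact le_of_mul_le_mul_left h4 hr4
  · have h3 : (s : ℝ) ^ 6 ≤ (r : ℝ) ^ 6 := pow_le_pow_left₀ hsR.le hsrR 6
    have hr6' : (0 : ℝ) < (r : ℝ) ^ 6 := by positivity
    have h4 : (r : ℝ) ^ 6 * |(W.c₆ : ℝ)| ≤ (r : ℝ) ^ 6 * (864 * |(b : ℝ)|) := by
      rw [← f6]
      have := mul_le_mul_of_nonneg_left h3 (by positivity : 0 ≤ 864 * |(b : ℝ)|)
      linarith
    exact le_of_mul_le_mul_left h4 hr6'
  · have h3 : (r : ℝ) ^ 4 ≤ (6 * s) ^ 4 := pow_le_pow_left₀ hrR.le hrsR 4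
    have hs4 : (0 : ℝ) < (s : ℝ) ^ 4 := by positivity
    have h4 : (s : ℝ) ^ 4 * (48 * |(a : ℝ)|) ≤ (s : ℝ) ^ 4 * (48 * (27 * |(W.c₄ : ℝ)|)) := by
      calc (s : ℝ) ^ 4 * (48 * |(a : ℝ)|) = (r : ℝ) ^ 4 * |(W.c₄ : ℝ)| := by rw [← f4]; ring
        _ ≤ (6 * s) ^ 4 * |(W.c₄ : ℝ)| := mul_le_mul_of_nonneg_right h3 (abs_nonneg _)
        _ = _ := by ring
    have := le_of_mul_le_mul_left h4 hs4
    linarith
  · have h3 : (r : ℝ) ^ 6 ≤ (6 * s) ^ 6 := pow_le_pow_left₀ hrR.le hrsR 6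
    have hs6 : (0 : ℝ) < (s : ℝ) ^ 6 := by positivity
    have h4 : (s : ℝ) ^ 6 * (864 * |(b : ℝ)|) ≤ (s : ℝ) ^ 6 * (864 * (54 * |(W.c₆ : ℝ)|)) := by
      calc (s : ℝ) ^ 6 * (864 * |(b : ℝ)|) = (r : ℝ) ^ 6 * |(W.c₆ : ℝ)| := by rw [← f6]; ring
        _ ≤ (6 * s) ^ 6 * |(W.c₆ : ℝ)| := mul_le_mul_of_nonneg_right h3 (abs_nonneg _)
        _ = _ := by ring
    have := le_of_mul_le_mul_left h4 hs6
    linarith

/-- the bounds for the Shimura map of the newform in terms of a bound for the height of the curve by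
a power of the level -/
theorem of_height {W : WeierstrassCurve ℤ} {N : ℕ} {a : ℕ → ℤ} {ρ : ℝ} (hA : Att N a W ρ)
    (hN : 2 ≤ N) {m κ : ℝ} (hκ : 14 + (m + 7) / 12 ≤ κ)
    (hH : max (|(W.c₄ : ℝ)| ^ 3) ((W.c₆ : ℝ) ^ 2) ≤ 10 ^ 15 * (N : ℝ) ^ (m + 7))
    {Ω₁ Ω₂ : ℂ} (hb : IsBasis N a Ω₁ Ω₂) (p q r s : ℤ) (hdet : p * s - q * r = 1)
    (hr : (N : ℤ) ∣ r) :
    (|r| ≤ (N : ℤ) ^ 2 → CoordBound a Ω₁ Ω₂ p q r s (ρ * (N : ℝ) ^ κ)) ∧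
      (r ≠ 0 → CoordBound a Ω₁ Ω₂ p q r s
        (ρ * (N : ℝ) ^ (κ + 1) * (1 + Real.log |(r : ℝ)|))) := by
  have hN2 : (2 : ℝ) ≤ N := by exact_mod_cast hN
  have hNpos : (0 : ℝ) < N := by linarith
  have hN1 : (1 : ℝ) ≤ N := by linarith
  obtain ⟨y, hy⟩ : ∃ y : ℝ, y = (N : ℝ) ^ ((m + 7) / 12) := ⟨_, rfl⟩
  have hy0 : 0 < y := by rw [hy]; positivity
  have hHR : max (|(W.c₄ : ℝ)| ^ 3) ((W.c₆ : ℝ) ^ 2) ≤ (18 * y) ^ 12 := by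
    refine hH.trans ?_
    have e : (N : ℝ) ^ (m + 7) = y ^ 12 := by
      rw [hy, ← Real.rpow_natCast, ← Real.rpow_mul hNpos.le]
      congr 1
      push_cast
      ring
    rw [e, mul_pow]
    exact mul_le_mul_of_nonneg_right (by norm_num) (by positivity)
  obtain ⟨k1, k2⟩ := hA.all (by omega) (by positivity : 0 < 18 * y) hHR hb p q r s hdet hr
  have hρ := hA.pos
  have e1 : y * (N : ℝ) ^ 13 ≤ (N : ℝ) ^ κ := by
    have h1 : y * (N : ℝ) ^ 13 = (N : ℝ) ^ ((m + 7) / 12 + 13) := by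
      rw [Real.rpow_add hNpos, ← hy]
      congr 1
      exact_mod_cast (Real.rpow_natCast (N : ℝ) 13).symm
    rw [h1]
    exact Real.rpow_le_rpow_of_exponent_le hN1 (by linarith)
  have e2 : y * (N : ℝ) ^ 15 ≤ (N : ℝ) ^ (κ + 1) := by
    have h1 : y * (N : ℝ) ^ 15 = (N : ℝ) ^ ((m + 7) / 12 + 15) := by
      rw [Real.rpow_add hNpos, ← hy]
      congr 1
      exact_mod_cast (Real.rpow_natCast (N : ℝ) 15).symm
    rw [h1]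
    exact Real.rpow_le_rpow_of_exponent_le hN1 (by linarith)
  refine ⟨fun hrN => ?_, fun hr0 => ?_⟩
  · intro m' n' hmn
    have hle : 18 * ρ * (r : ℝ) ^ 2 * (18 * y) ≤ ρ * (N : ℝ) ^ κ := by
      have h1 : (r : ℝ) ^ 2 ≤ (N : ℝ) ^ 4 := by
        have h5 : |(r : ℝ)| ≤ (N : ℝ) ^ 2 := by exact_mod_cast hrN
        calc (r : ℝ) ^ 2 = |(r : ℝ)| ^ 2 := (sq_abs _).symm
          _ ≤ ((N : ℝ) ^ 2) ^ 2 := pow_le_pow_left₀ (abs_nonneg _) h5 2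
          _ = _ := by ring
      have h2 : (324 : ℝ) ≤ (N : ℝ) ^ 9 := by
        calc (324 : ℝ) ≤ 2 ^ 9 := by norm_num
          _ ≤ _ := pow_le_pow_left₀ (by norm_num) hN2 9
      calc 18 * ρ * (r : ℝ) ^ 2 * (18 * y) = ρ * y * (324 * (r : ℝ) ^ 2) := by ring
        _ ≤ ρ * y * ((N : ℝ) ^ 9 * (N : ℝ) ^ 4) := by
            refine mul_le_mul_of_nonneg_left ?_ (by positivity)
            exact mul_le_mul h2 h1 (by positivity) (by positivity)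
        _ = ρ * (y * (N : ℝ) ^ 13) := by ring
        _ ≤ _ := mul_le_mul_of_nonneg_left e1 hρ.le
    obtain ⟨a1, a2⟩ := k1 m' n' hmn
    exact ⟨a1.trans hle, a2.trans hle⟩
  · intro m' n' hmn
    have hlog : 0 ≤ 1 + Real.log |(r : ℝ)| := by
      have h1 : (1 : ℝ) ≤ |(r : ℝ)| := by exact_mod_cast Int.one_le_abs hr0
      have := Real.log_nonneg h1
      linarith
    have hle : 36 * ρ * (N : ℝ) ^ 5 * (18 * y) * (1 + Real.log |(r : ℝ)|) ≤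
        ρ * (N : ℝ) ^ (κ + 1) * (1 + Real.log |(r : ℝ)|) := by
      refine mul_le_mul_of_nonneg_right ?_ hlog
      have h2 : (648 : ℝ) ≤ (N : ℝ) ^ 10 := by
        calc (648 : ℝ) ≤ 2 ^ 10 := by norm_num
          _ ≤ _ := pow_le_pow_left₀ (by norm_num) hN2 10
      calc 36 * ρ * (N : ℝ) ^ 5 * (18 * y) = ρ * y * (N : ℝ) ^ 5 * 648 := by ring
        _ ≤ ρ * y * (N : ℝ) ^ 5 * (N : ℝ) ^ 10 :=
            mul_le_mul_of_nonneg_left h2 (by positivity)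
        _ = ρ * (y * (N : ℝ) ^ 15) := by ring
        _ ≤ _ := mul_le_mul_of_nonneg_left e2 hρ.le
    obtain ⟨a1, a2⟩ := k2 hr0 m' n' hmn
    exact ⟨a1.trans hle, a2.trans hle⟩

/-- the level is at least the conductor -/
theorem max_le_level {W : WeierstrassCurve ℤ} {N : ℕ} {a : ℕ → ℤ} {ρ : ℝ} (hA : Att N a W ρ)
    (hN : 2 ≤ N) {x y : ℤ} (h : condS x y ≤ condW W) : Mx x y ≤ N := by
  have h1 : condW W ≤ N := Nat.le_of_dvd (by omega) hA.lev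
  refine max_le (by exact_mod_cast hN) ?_
  exact_mod_cast h.trans h1

/-- **the Shimura map in terms of the invariant** -/
theorem of_not_large {W : WeierstrassCurve ℤ} (hW : GMin W) {m κ : ℝ} (hm : 0 ≤ m)
    (hκ : 14 + (m + 7) / 12 ≤ κ) {j : ℚ} (hj : (W.c₄ : ℚ) ^ 3 / (W.Δ : ℚ) = j)
    (hnl : ¬ Large m j) {N : ℕ} {a : ℕ → ℤ} {ρ : ℝ} (hN : 2 ≤ N) (hA : Att N a W ρ)
    {Ω₁ Ω₂ : ℂ} (hb : IsBasis N a Ω₁ Ω₂) (p q r s : ℤ) (hdet : p * s - q * r = 1)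
    (hr : (N : ℤ) ∣ r) :
    (|r| ≤ (N : ℤ) ^ 2 → CoordBound a Ω₁ Ω₂ p q r s (ρ * (N : ℝ) ^ κ)) ∧
      (r ≠ 0 → CoordBound a Ω₁ Ω₂ p q r s
        (ρ * (N : ℝ) ^ (κ + 1) * (1 + Real.log |(r : ℝ)|))) := by
  obtain ⟨x, y, hmin, hjI, hcond, h4, h6, -, -⟩ := hgt_le hW
  rw [hj] at hjI
  have hMN := max_le_level hA hN hcond
  have hN2 : (2 : ℝ) ≤ N := by exact_mod_cast hN
  have hNpos : (0 : ℝ) < N := by linarith
  have hM := two_le_Mx x y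
  have hM0 : 0 < Mx x y := by linarith
  have hht : (ht j : ℝ) ≤ (N : ℝ) ^ m := by
    have h1 : (ht j : ℝ) ≤ Mx x y ^ m := by
      by_contra hcon
      push Not at hcon
      exact hnl ⟨x, y, hmin, hjI, hcon⟩
    exact h1.trans (Real.rpow_le_rpow hM0.le hMN hm)
  obtain ⟨c1, c2⟩ := coeff_le hmin
  rw [hjI] at c1 c2
  obtain ⟨K, hK⟩ : ∃ K : ℝ, K = (N : ℝ) ^ (m + 7) := ⟨_, rfl⟩
  have hK0 : 0 < K := by rw [hK]; positivity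
  have hKle : 46656 * 559872 * Mx x y ^ 7 * (ht j : ℝ) ≤ 46656 * 559872 * K := by
    have h1 : Mx x y ^ 7 * (ht j : ℝ) ≤ (N : ℝ) ^ 7 * (N : ℝ) ^ m :=
      mul_le_mul (pow_le_pow_left₀ hM0.le hMN 7) hht (Nat.cast_nonneg _) (by positivity)
    have h2 : (N : ℝ) ^ 7 * (N : ℝ) ^ m = K := by
      rw [hK, Real.rpow_add hNpos, mul_comm]
      congr 1
      exact_mod_cast (Real.rpow_natCast (N : ℝ) 7).symm
    rw [h2] at h1
    nlinarith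
  have hD := c1.trans hKle
  have ha3 := c2.trans hKle
  refine of_height hA hN hκ ?_ hb p q r s hdet hr
  rw [← hK]
  refine max_le ?_ ?_
  · have h1 : |(W.c₄ : ℝ)| ^ 3 ≤ (48 * |(x : ℝ)|) ^ 3 := pow_le_pow_left₀ (abs_nonneg _) h4 3
    have h2 : (48 * |(x : ℝ)|) ^ 3 = 16 * (6912 * |(x : ℝ)| ^ 3) := by ring
    rw [h2] at h1
    nlinarith
  · have h1 : (W.c₆ : ℝ) ^ 2 ≤ (864 * |(y : ℝ)|) ^ 2 := by
      rw [← sq_abs (W.c₆ : ℝ)]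
      exact pow_le_pow_left₀ (abs_nonneg _) h6 2
    have h2 : (864 * |(y : ℝ)|) ^ 2 = 27648 * (27 * (y : ℝ) ^ 2) := by
      rw [mul_pow, sq_abs]
      ring
    have hb2 : 27 * (y : ℝ) ^ 2 ≤ 4 * |(x : ℝ)| ^ 3 + |((Dsc x y : ℤ) : ℝ)| := by
      have e1 : 27 * (y : ℝ) ^ 2 = 4 * (x : ℝ) ^ 3 - ((Dsc x y : ℤ) : ℝ) := by
        unfold Dsc; push_cast; ring
      rw [e1]
      have e2 : (x : ℝ) ^ 3 ≤ |(x : ℝ)| ^ 3 := by rw [← abs_pow]; exact le_abs_self _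
      have e3 := neg_abs_le ((Dsc x y : ℤ) : ℝ)
      linarith
    rw [h2] at h1
    nlinarith

end Pool.Agent.Seat74.BM
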