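import Mathlib
import Pool.Agent.Seat74.BM.Hgt

/-!
# The number of the curves whose height is large in terms of the conductor
-/

set_option autoImplicit false

namespace Pool.Agent.Seat74.BM

open Finset Pool.Agent.W4.CF
open Pool.Agent.H925R.Szpiro (D IsMin condS)
open Pool.Agent.Helper29S
open Pool.Agent.TH133.SH (IsNewform IsBasis CoordBound Hval)
open Pool.Agent.H39R3 (GMin condW condW_pos cond_le)
open Pool.Agent.N365.SM (Att)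

/-- the minimal models of given height with a small conductor -/
theorem count_Mx (ε : ℝ) (hε : 0 < ε) : ∃ C : ℝ, 0 < C ∧ ∀ R Y : ℝ, 1 ≤ R → 1 ≤ Y →
    ∀ s : Finset (ℤ × ℤ), (∀ x ∈ s, IsMin x.1 x.2 ∧ Mx x.1 x.2 ≤ R ∧ |(x.1 : ℝ)| ≤ Y ∧
      |(x.2 : ℝ)| ≤ Y) → (s.card : ℝ) ≤ C * R ^ (4 : ℝ) * Y ^ ε := by
  classical
  obtain ⟨C0, hC0, h0⟩ := count_all ε hε
  refine ⟨6 * C0, by positivity, fun R Y hR1 hY s hs => ?_⟩
  have hY0 : 0 < Y := by linarith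
  have hR0 : 0 < R := by linarith
  have hex : ∀ x ∈ s, ∃ y : ℕ × (ℤ × ℤ), 1 ≤ y.1 ∧ x.1 = (y.1 : ℤ) ^ 2 * y.2.1 ∧
      x.2 = (y.1 : ℤ) ^ 3 * y.2.2 ∧ Red y.2.1 y.2.2 ∧ Dsc y.2.1 y.2.2 ≠ 0 ∧
      (y.1 : ℝ) ≤ 6 * R ^ ((1 : ℝ) / 2) ∧ (radp 6 (Dsc y.2.1 y.2.2).natAbs : ℝ) ≤ R := by
    intro x hx
    obtain ⟨hmin, hMR, -, -⟩ := hs x hx
    obtain ⟨d, a', b', g1, g2, g3, g4, g5, g6, g7, g8⟩ := min_red hmin
    refine ⟨(d, (a', b')), g1, g2, g3, g4, g5, ?_, ?_⟩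
    · have h1 : (d : ℝ) ^ 2 ≤ 36 * (condS x.1 x.2 : ℝ) := by exact_mod_cast g7
      have h2 : (d : ℝ) ^ 2 ≤ (6 * R ^ ((1 : ℝ) / 2)) ^ 2 := by
        have h3 : (R ^ ((1 : ℝ) / 2)) ^ 2 = R := by
          rw [← Real.rpow_natCast, ← Real.rpow_mul hR0.le]
          norm_num
        rw [mul_pow, h3]
        have := (cond_le_Mx x.1 x.2).trans hMR
        linarith
      exact le_of_sq_le_sq h2 (by positivity)
    · have h1 : (radp 6 (Dsc a' b').natAbs : ℝ) ≤ (condS x.1 x.2 : ℝ) := by exact_mod_cast g8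
      exact h1.trans ((cond_le_Mx x.1 x.2).trans hMR)
  choose! f hf using hex
  have hinj : Set.InjOn f s := by
    intro x hx y hy hxy
    obtain ⟨-, x2, x3, -⟩ := hf x hx
    obtain ⟨-, y2, y3, -⟩ := hf y hy
    rw [hxy] at x2 x3
    exact Prod.ext (x2.trans y2.symm) (x3.trans y3.symm)
  set T := s.image f with hT
  have hcardT : s.card = T.card := (Finset.card_image_of_injOn hinj).symm
  have hstep : (T.card : ℝ) ≤ C0 * R ^ ((7 : ℝ) / 2) * Y ^ ε * ((T.image Prod.fst).card : ℝ) := by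
    apply card_fib Prod.fst T (by positivity)
    intro c _
    have hinj2 : Set.InjOn Prod.snd ((T.filter fun a => a.1 = c : Finset (ℕ × (ℤ × ℤ))) :
        Set (ℕ × (ℤ × ℤ))) := by
      intro a ha b hb hab
      rw [Finset.mem_coe, Finset.mem_filter] at ha hb
      exact Prod.ext (ha.2.trans hb.2.symm) hab
    rw [← Finset.card_image_of_injOn hinj2]
    apply h0 R Y hR1 hY
    intro y hy
    rw [Finset.mem_image] at hy
    obtain ⟨z, hz, rfl⟩ := hy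
    rw [Finset.mem_filter, hT, Finset.mem_image] at hz
    obtain ⟨⟨x, hx, rfl⟩, -⟩ := hz
    obtain ⟨g1, g2, g3, g4, g5, g6, g7⟩ := hf x hx
    obtain ⟨-, -, h2, h3⟩ := hs x hx
    have hd1 : (1 : ℝ) ≤ ((f x).1 : ℝ) := by exact_mod_cast g1
    refine ⟨g4, g5, ?_, ?_, g7⟩
    · refine le_trans ?_ h2
      have e : (x.1 : ℝ) = ((f x).1 : ℝ) ^ 2 * ((f x).2.1 : ℝ) := by exact_mod_cast g2
      rw [e, abs_mul, abs_of_nonneg (by positivity : (0 : ℝ) ≤ ((f x).1 : ℝ) ^ 2)]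
      exact le_mul_of_one_le_left (abs_nonneg _) (one_le_pow₀ hd1)
    · refine le_trans ?_ h3
      have e : (x.2 : ℝ) = ((f x).1 : ℝ) ^ 3 * ((f x).2.2 : ℝ) := by exact_mod_cast g3
      rw [e, abs_mul, abs_of_nonneg (by positivity : (0 : ℝ) ≤ ((f x).1 : ℝ) ^ 3)]
      exact le_mul_of_one_le_left (abs_nonneg _) (one_le_pow₀ hd1)
  have hd : ((T.image Prod.fst).card : ℝ) ≤ 6 * R ^ ((1 : ℝ) / 2) := by
    have h1 : T.image Prod.fst ⊆ Finset.Icc 1 ⌊6 * R ^ ((1 : ℝ) / 2)⌋₊ := by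
      intro n hn
      rw [Finset.mem_image] at hn
      obtain ⟨z, hz, rfl⟩ := hn
      rw [hT, Finset.mem_image] at hz
      obtain ⟨x, hx, rfl⟩ := hz
      obtain ⟨g1, -, -, -, -, g6, -⟩ := hf x hx
      exact Finset.mem_Icc.2 ⟨g1, Nat.le_floor g6⟩
    have h2 := Finset.card_le_card h1
    rw [Nat.card_Icc, Nat.add_sub_cancel] at h2
    calc ((T.image Prod.fst).card : ℝ) ≤ (⌊6 * R ^ ((1 : ℝ) / 2)⌋₊ : ℝ) := by exact_mod_cast h2
      _ ≤ _ := Nat.floor_le (by positivity)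
  rw [hcardT]
  calc (T.card : ℝ) ≤ C0 * R ^ ((7 : ℝ) / 2) * Y ^ ε * (6 * R ^ ((1 : ℝ) / 2)) :=
        hstep.trans (mul_le_mul_of_nonneg_left hd (by positivity))
    _ = 6 * C0 * (R ^ ((7 : ℝ) / 2) * R ^ ((1 : ℝ) / 2)) * Y ^ ε := by ring
    _ = 6 * C0 * R ^ (4 : ℝ) * Y ^ ε := by
        rw [← Real.rpow_add hR0]
        norm_num

/-- `max (|c₄|³, c₆²)` -/
noncomputable def hgt (x y : ℤ) : ℝ := max (|(x : ℝ)| ^ 3) ((y : ℝ) ^ 2)

/-- `x = c₄` and `y = c₆` for a global minimal equation with a height larger than the `m`-th power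
of the conductor -/
def CL (m : ℝ) (x y : ℤ) : Prop := ∃ W : WeierstrassCurve ℤ, GMin W ∧ W.c₄ = x ∧ W.c₆ = y ∧
  (max 2 (condW W : ℝ)) ^ m < hgt x y

lemma CL.mono {m m' : ℝ} {x y : ℤ} (h : m ≤ m') (hb : CL m' x y) : CL m x y := by
  obtain ⟨W, h1, h2, h3, h4⟩ := hb
  refine ⟨W, h1, h2, h3, lt_of_le_of_lt ?_ h4⟩
  refine Real.rpow_le_rpow_of_exponent_le ?_ h
  linarith [le_max_left (2 : ℝ) (condW W : ℝ)]

lemma hgt_le_cube {x y : ℤ} {Y : ℝ} (hY : 1 ≤ Y) (h1 : |(x : ℝ)| ≤ Y) (h2 : |(y : ℝ)| ≤ Y) :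
    hgt x y ≤ Y ^ 3 := by
  refine max_le (pow_le_pow_left₀ (abs_nonneg _) h1 3) ?_
  rw [← sq_abs]
  exact (pow_le_pow_left₀ (abs_nonneg _) h2 2).trans (pow_le_pow_right₀ hY (by norm_num))

theorem count_CL (m ε : ℝ) (hm : 0 < m) (hε : 0 < ε) : ∃ C : ℝ, 0 < C ∧ ∀ Y : ℝ, 1 ≤ Y →
    ∀ s : Finset (ℤ × ℤ), (∀ x ∈ s, CL m x.1 x.2 ∧ |(x.1 : ℝ)| ≤ Y ∧ |(x.2 : ℝ)| ≤ Y) →
    (s.card : ℝ) ≤ C * Y ^ (12 / m + ε) := by
  classical
  obtain ⟨C0, hC0, h0⟩ := count_Mx ε hε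
  refine ⟨49 * C0 * 54 ^ ε, by positivity, fun Y hY s hs => ?_⟩
  have hY0 : 0 < Y := by linarith
  set R : ℝ := (Y ^ 3) ^ (1 / m) with hR
  have hR1 : 1 ≤ R := Real.one_le_rpow (one_le_pow₀ hY) (by positivity)
  have hR0 : 0 < R := by linarith
  have hex : ∀ x ∈ s, ∃ y : (ℕ × ℕ) × (ℤ × ℤ), y.1.1 ≤ 6 ∧ y.1.2 ≤ 6 ∧ 0 < y.1.1 ∧
      IsMin y.2.1 y.2.2 ∧ Mx y.2.1 y.2.2 ≤ R ∧ |(y.2.1 : ℝ)| ≤ 54 * Y ∧ |(y.2.2 : ℝ)| ≤ 54 * Y ∧
      48 * y.2.1 * (y.1.2 : ℤ) ^ 4 = (y.1.1 : ℤ) ^ 4 * x.1 ∧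
      864 * y.2.2 * (y.1.2 : ℤ) ^ 6 = (y.1.1 : ℤ) ^ 6 * x.2 := by
    intro x hx
    obtain ⟨⟨W, hW, hx1, hx2, hl⟩, hxY, hyY⟩ := hs x hx
    obtain ⟨a, b, r, s, hmin, -, hs0, hsr, hr6, e4, e6, e12, hrs⟩ :=
      Pool.Agent.W270.TM.intsR W hW
    have hr0 : 0 < r := lt_of_lt_of_le hs0 hsr
    have hr6' : r ≤ 6 := Nat.le_of_dvd (by norm_num) hr6
    have hcS : condS a b ≤ condW W := cond_le W a b r s hr6 e4 e12 hW.1
    have hsR : (0 : ℝ) < s := by exact_mod_cast hs0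
    have hrR : (0 : ℝ) < r := by exact_mod_cast hr0
    have hrsR : (r : ℝ) ≤ 6 * s := by exact_mod_cast hrs
    have f4 : 48 * |(a : ℝ)| * (s : ℝ) ^ 4 = (r : ℝ) ^ 4 * |(W.c₄ : ℝ)| := by
      have h2 := congrArg (fun z : ℤ => |(z : ℝ)|) e4
      simp only [Int.cast_mul, Int.cast_pow, abs_mul, abs_pow, Int.cast_natCast, Nat.abs_cast] at h2
      rw [← h2]
      norm_num
    have f6 : 864 * |(b : ℝ)| * (s : ℝ) ^ 6 = (r : ℝ) ^ 6 * |(W.c₆ : ℝ)| := by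
      have h2 := congrArg (fun z : ℤ => |(z : ℝ)|) e6
      simp only [Int.cast_mul, Int.cast_pow, abs_mul, abs_pow, Int.cast_natCast, Nat.abs_cast] at h2
      rw [← h2]
      norm_num
    rw [hx1] at e4 f4
    rw [hx2] at e6 f6
    refine ⟨((r, s), (a, b)), hr6', hsr.trans hr6', hr0, hmin, ?_, ?_, ?_, e4, e6⟩
    · have hle : hgt x.1 x.2 ≤ Y ^ 3 := hgt_le_cube hY hxY hyY
      obtain ⟨c, hc⟩ : ∃ c : ℝ, c = max 2 (condW W : ℝ) := ⟨_, rfl⟩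
      have hc2 : 2 ≤ c := by rw [hc]; exact le_max_left _ _
      have hc0 : 0 ≤ c := by linarith
      have hMc : Mx a b ≤ c := by
        rw [hc]
        refine max_le_max le_rfl ?_
        exact_mod_cast hcS
      rw [← hc] at hl
      calc Mx a b ≤ c := hMc
        _ = (c ^ m) ^ (1 / m) := by
          rw [← Real.rpow_mul hc0, mul_one_div_cancel hm.ne', Real.rpow_one]
        _ ≤ R := Real.rpow_le_rpow (by positivity) (hl.le.trans hle) (by positivity)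
    · have h3 : (r : ℝ) ^ 4 ≤ (6 * s) ^ 4 := pow_le_pow_left₀ hrR.le hrsR 4
      have hs4 : (0 : ℝ) < (s : ℝ) ^ 4 := by positivity
      have h4 : (s : ℝ) ^ 4 * (48 * |(a : ℝ)|) ≤ (s : ℝ) ^ 4 * (48 * (27 * |(x.1 : ℝ)|)) := by
        calc (s : ℝ) ^ 4 * (48 * |(a : ℝ)|) = (r : ℝ) ^ 4 * |(x.1 : ℝ)| := by rw [← f4]; ring
          _ ≤ (6 * s) ^ 4 * |(x.1 : ℝ)| := mul_le_mul_of_nonneg_right h3 (abs_nonneg _)
          _ = _ := by ring
      have := le_of_mul_le_mul_left h4 hs4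
      simp only
      linarith
    · have h3 : (r : ℝ) ^ 6 ≤ (6 * s) ^ 6 := pow_le_pow_left₀ hrR.le hrsR 6
      have hs6 : (0 : ℝ) < (s : ℝ) ^ 6 := by positivity
      have h4 : (s : ℝ) ^ 6 * (864 * |(b : ℝ)|) ≤ (s : ℝ) ^ 6 * (864 * (54 * |(x.2 : ℝ)|)) := by
        calc (s : ℝ) ^ 6 * (864 * |(b : ℝ)|) = (r : ℝ) ^ 6 * |(x.2 : ℝ)| := by rw [← f6]; ring
          _ ≤ (6 * s) ^ 6 * |(x.2 : ℝ)| := mul_le_mul_of_nonneg_right h3 (abs_nonneg _)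
          _ = _ := by ring
      have := le_of_mul_le_mul_left h4 hs6
      simp only
      linarith
  choose! f hf using hex
  have hinj : Set.InjOn f s := by
    intro x hx y hy hxy
    obtain ⟨-, -, x0, -, -, -, -, x1, x2⟩ := hf x hx
    obtain ⟨-, -, y0, -, -, -, -, y1, y2⟩ := hf y hy
    rw [hxy] at x0 x1 x2
    have hne : ((f y).1.1 : ℤ) ≠ 0 := by exact_mod_cast y0.ne'
    exact Prod.ext (mul_left_cancel₀ (pow_ne_zero 4 hne) (x1.symm.trans y1))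
      (mul_left_cancel₀ (pow_ne_zero 6 hne) (x2.symm.trans y2))
  set T := s.image f with hT
  have hcardT : s.card = T.card := (Finset.card_image_of_injOn hinj).symm
  have hstep : (T.card : ℝ) ≤ C0 * R ^ (4 : ℝ) * (54 * Y) ^ ε * ((T.image Prod.fst).card : ℝ) := by
    apply card_fib Prod.fst T (by positivity)
    intro c _
    have hinj2 : Set.InjOn Prod.snd ((T.filter fun a => a.1 = c :
        Finset ((ℕ × ℕ) × (ℤ × ℤ))) : Set ((ℕ × ℕ) × (ℤ × ℤ))) := by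
      intro a ha b hb hab
      rw [Finset.mem_coe, Finset.mem_filter] at ha hb
      exact Prod.ext (ha.2.trans hb.2.symm) hab
    rw [← Finset.card_image_of_injOn hinj2]
    apply h0 R (54 * Y) hR1 (by linarith)
    intro y hy
    rw [Finset.mem_image] at hy
    obtain ⟨z, hz, rfl⟩ := hy
    rw [Finset.mem_filter, hT, Finset.mem_image] at hz
    obtain ⟨⟨x, hx, rfl⟩, -⟩ := hz
    obtain ⟨-, -, -, g4, g5, g6, g7, -, -⟩ := hf x hx
    exact ⟨g4, g5, g6, g7⟩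
  have hd : ((T.image Prod.fst).card : ℝ) ≤ 49 := by
    have h1 : T.image Prod.fst ⊆ Finset.range 7 ×ˢ Finset.range 7 := by
      intro n hn
      rw [Finset.mem_image] at hn
      obtain ⟨z, hz, rfl⟩ := hn
      rw [hT, Finset.mem_image] at hz
      obtain ⟨x, hx, rfl⟩ := hz
      obtain ⟨g1, g2, -⟩ := hf x hx
      rw [Finset.mem_product, Finset.mem_range, Finset.mem_range]
      exact ⟨by omega, by omega⟩
    have h2 := Finset.card_le_card h1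
    rw [Finset.card_product, Finset.card_range] at h2
    exact_mod_cast h2
  rw [hcardT]
  have e1 : R ^ (4 : ℝ) = Y ^ (12 / m) := by
    rw [hR, ← Real.rpow_natCast Y 3, ← Real.rpow_mul hY0.le, ← Real.rpow_mul hY0.le]
    congr 1
    push_cast
    ring
  calc (T.card : ℝ) ≤ C0 * R ^ (4 : ℝ) * (54 * Y) ^ ε * 49 :=
        hstep.trans (mul_le_mul_of_nonneg_left hd (by positivity))
    _ = 49 * C0 * 54 ^ ε * (Y ^ (12 / m) * Y ^ ε) := by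
        rw [e1, Real.mul_rpow (by norm_num) hY0.le]
        ring
    _ = 49 * C0 * 54 ^ ε * Y ^ (12 / m + ε) := by rw [← Real.rpow_add hY0]

/-- **the Shimura map of the newform of a curve of bounded height** -/
theorem of_not_CL {W : WeierstrassCurve ℤ} (hW : GMin W) {m κ : ℝ} (hm : 0 ≤ m)
    (hκ : 14 + m / 12 ≤ κ) (hnl : ¬ CL m W.c₄ W.c₆) {N : ℕ} {a : ℕ → ℤ} {ρ : ℝ} (hN : 2 ≤ N)
    (hA : Att N a W ρ) {Ω₁ Ω₂ : ℂ} (hb : IsBasis N a Ω₁ Ω₂) (p q r s : ℤ)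
    (hdet : p * s - q * r = 1) (hr : (N : ℤ) ∣ r) :
    (|r| ≤ (N : ℤ) ^ 2 → CoordBound a Ω₁ Ω₂ p q r s (ρ * (N : ℝ) ^ κ)) ∧
      (r ≠ 0 → CoordBound a Ω₁ Ω₂ p q r s
        (ρ * (N : ℝ) ^ (κ + 1) * (1 + Real.log |(r : ℝ)|))) := by
  have hN2 : (2 : ℝ) ≤ N := by exact_mod_cast hN
  have hcN : max 2 (condW W : ℝ) ≤ N := by
    refine max_le hN2 ?_
    exact_mod_cast Nat.le_of_dvd (by omega) hA.lev
  have h1 : hgt W.c₄ W.c₆ ≤ (max 2 (condW W : ℝ)) ^ m := by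
    by_contra hcon
    push Not at hcon
    exact hnl ⟨W, hW, rfl, rfl, hcon⟩
  have h2 : hgt W.c₄ W.c₆ ≤ 10 ^ 15 * (N : ℝ) ^ ((m - 7) + 7) := by
    have e : m - 7 + 7 = m := by ring
    rw [e]
    have h3 : (max 2 (condW W : ℝ)) ^ m ≤ (N : ℝ) ^ m :=
      Real.rpow_le_rpow (le_trans (by norm_num) (le_max_left _ _)) hcN hm
    have h4 : 0 < (N : ℝ) ^ m := by positivity
    calc hgt W.c₄ W.c₆ ≤ (N : ℝ) ^ m := h1.trans h3
      _ ≤ 10 ^ 15 * (N : ℝ) ^ m := by nlinarith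
  exact of_height hA hN (m := m - 7) (by linarith) h2 hb p q r s hdet hr

end Pool.Agent.Seat74.BM
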