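import Mathlib
import Pool.Agent.Seat74.BM.Cnt

/-!
# One-parameter families: the members with a rare invariant
-/

set_option autoImplicit false

namespace Pool.Agent.Seat74.BM

open Polynomial
open Pool.Agent.Helper29S (ht one_le_ht)

/-- the value of the polynomial `f` at the rational number `t` -/
noncomputable def val (f : ℤ[X]) (t : ℚ) : ℚ := f.eval₂ (Int.castRingHom ℚ) t

/-- `A / D` is a rational function of degree `d ≥ 1` in lowest terms -/
structure IsFun (d : ℕ) (A D : ℤ[X]) : Prop where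
  pos : 1 ≤ d
  deg_num : A.natDegree ≤ d
  deg_den : D.natDegree ≤ d
  deg : A.natDegree = d ∨ D.natDegree = d
  coprime : IsCoprime (A.map (Int.castRingHom ℚ)) (D.map (Int.castRingHom ℚ))

/-- the homogeneous form of the polynomial `f` -/
noncomputable def hom (d : ℕ) (f : ℤ[X]) (x y : ℤ) : ℤ :=
  ∑ i ∈ Finset.range (d + 1), f.coeff i * x ^ i * y ^ (d - i)

lemma hom_eq {d : ℕ} {f : ℤ[X]} (hf : f.natDegree ≤ d) (t : ℚ) :
    (hom d f t.num t.den : ℚ) = (t.den : ℚ) ^ d * val f t := by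
  have hd : (t.den : ℚ) ≠ 0 := by exact_mod_cast t.den_ne_zero
  unfold hom val
  rw [eval₂_eq_sum_range' (Int.castRingHom ℚ) (Nat.lt_succ_of_le hf), Finset.mul_sum]
  push_cast
  refine Finset.sum_congr rfl fun i hi => ?_
  rw [Finset.mem_range, Nat.lt_succ_iff] at hi
  have h1 : (t.den : ℚ) ^ d = (t.den : ℚ) ^ (d - i) * (t.den : ℚ) ^ i := by
    rw [← pow_add, Nat.sub_add_cancel hi]
  have h2 : (t.num : ℚ) = (t.den : ℚ) * t := (Rat.den_mul_eq_num t).symm
  rw [h1, h2, mul_pow]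
  simp only [eq_intCast]
  ring

lemma hom_le (d : ℕ) (f : ℤ[X]) {x y : ℤ} {B : ℝ} (hx : |(x : ℝ)| ≤ B) (hy : |(y : ℝ)| ≤ B) :
    |((hom d f x y : ℤ) : ℝ)| ≤ (∑ i ∈ Finset.range (d + 1), |(f.coeff i : ℝ)|) * B ^ d := by
  have hB : 0 ≤ B := (abs_nonneg _).trans hx
  unfold hom
  push_cast
  refine (Finset.abs_sum_le_sum_abs _ _).trans ?_
  rw [Finset.sum_mul]
  refine Finset.sum_le_sum fun i hi => ?_
  rw [Finset.mem_range, Nat.lt_succ_iff] at hi
  rw [abs_mul, abs_mul, abs_pow, abs_pow]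
  have h1 : B ^ d = B ^ i * B ^ (d - i) := by rw [← pow_add, Nat.add_sub_cancel' hi]
  rw [h1, ← mul_assoc]
  gcongr

lemma ht_div_le {P Q : ℤ} (hQ : Q ≠ 0) {Z : ℝ} (h1 : |(P : ℝ)| ≤ Z) (h2 : |(Q : ℝ)| ≤ Z)
    (hZ : 1 ≤ Z) : (ht ((P : ℚ) / (Q : ℚ)) : ℝ) ≤ Z := by
  unfold ht
  rw [Nat.cast_max]
  refine max_le ?_ ?_
  · by_cases hP : P = 0
    · rw [hP]
      simp only [Int.cast_zero, zero_div, Rat.num_ofNat, Int.natAbs_zero, CharP.cast_eq_zero]
      linarith
    · have h3 : ((P : ℚ) / (Q : ℚ)).num ∣ P := by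
        rw [← Rat.divInt_eq_div]
        exact Rat.num_dvd P hQ
      have h4 := Int.natAbs_le_of_dvd_ne_zero h3 hP
      have h5 : ((((P : ℚ) / (Q : ℚ)).num.natAbs : ℕ) : ℝ) ≤ ((P.natAbs : ℕ) : ℝ) := by
        exact_mod_cast h4
      refine h5.trans ?_
      rw [Nat.cast_natAbs, Int.cast_abs]
      exact h1
  · have h3 : (((P : ℚ) / (Q : ℚ)).den : ℤ) ∣ Q := by
      rw [← Rat.divInt_eq_div]
      exact Rat.den_dvd P Q
    have h4 := Int.natAbs_le_of_dvd_ne_zero h3 hQ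
    rw [Int.natAbs_natCast] at h4
    have h5 : ((((P : ℚ) / (Q : ℚ)).den : ℕ) : ℝ) ≤ ((Q.natAbs : ℕ) : ℝ) := by
      exact_mod_cast h4
    refine h5.trans ?_
    rw [Nat.cast_natAbs, Int.cast_abs]
    exact h2

/-- the height of the value of a rational function -/
theorem ht_le {d : ℕ} {A D : ℤ[X]} (h : IsFun d A D) : ∃ C : ℝ, 1 ≤ C ∧ ∀ (B : ℝ) (t : ℚ), 1 ≤ B →
    |(t.num : ℝ)| ≤ B → (t.den : ℝ) ≤ B → val D t ≠ 0 → (ht (val A t / val D t) : ℝ) ≤ C * B ^ d := by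
  refine ⟨1 + (∑ i ∈ Finset.range (d + 1), |(A.coeff i : ℝ)|) +
    ∑ i ∈ Finset.range (d + 1), |(D.coeff i : ℝ)|, ?_, fun B t hB h1 h2 h3 => ?_⟩
  · have := Finset.sum_nonneg (s := Finset.range (d + 1)) (f := fun i => |(A.coeff i : ℝ)|)
      fun i _ => abs_nonneg _
    have := Finset.sum_nonneg (s := Finset.range (d + 1)) (f := fun i => |(D.coeff i : ℝ)|)
      fun i _ => abs_nonneg _
    linarith
  · have g1 := Finset.sum_nonneg (s := Finset.range (d + 1)) (f := fun i => |(A.coeff i : ℝ)|)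
      fun i _ => abs_nonneg _
    have g2 := Finset.sum_nonneg (s := Finset.range (d + 1)) (f := fun i => |(D.coeff i : ℝ)|)
      fun i _ => abs_nonneg _
    have hBd : 1 ≤ B ^ d := one_le_pow₀ hB
    have h2' : |((t.den : ℤ) : ℝ)| ≤ B := by
      rw [Int.cast_natCast, Nat.abs_cast]
      exact h2
    have hd : (t.den : ℚ) ≠ 0 := by exact_mod_cast t.den_ne_zero
    have hQ : hom d D t.num t.den ≠ 0 := by
      intro h0
      have h4 := hom_eq h.deg_den t
      rw [h0, Int.cast_zero] at h4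
      rcases mul_eq_zero.1 h4.symm with h5 | h5
      · exact pow_ne_zero d hd h5
      · exact h3 h5
    have e : val A t / val D t = (hom d A t.num t.den : ℚ) / (hom d D t.num t.den : ℚ) := by
      rw [hom_eq h.deg_num, hom_eq h.deg_den]
      field_simp
    rw [e]
    apply ht_div_le hQ
    · refine (hom_le d A h1 h2').trans (mul_le_mul_of_nonneg_right ?_ (by positivity))
      linarith
    · refine (hom_le d D h1 h2').trans (mul_le_mul_of_nonneg_right ?_ (by positivity))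
      linarith
    · nlinarith

lemma den_ne {d : ℕ} {A D : ℤ[X]} (h : IsFun d A D) : D.map (Int.castRingHom ℚ) ≠ 0 := by
  intro h0
  have hinj : Function.Injective (Int.castRingHom ℚ) := RingHom.injective_int _
  have hD : D = 0 := (Polynomial.map_eq_zero_iff hinj).1 h0
  have h1 := h.coprime
  rw [h0, isCoprime_zero_right] at h1
  have h2 := Polynomial.natDegree_eq_zero_of_isUnit h1
  rw [Polynomial.natDegree_map_eq_of_injective hinj] at h2
  rcases h.deg with h3 | h3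
  · have := h.pos; omega
  · rw [hD, natDegree_zero] at h3
    have := h.pos; omega

lemma val_eq (f : ℤ[X]) (t : ℚ) : val f t = (f.map (Int.castRingHom ℚ)).eval t := by
  rw [val, Polynomial.eval_map]

lemma zeros {d : ℕ} {A D : ℤ[X]} (h : IsFun d A D) (S : Finset ℚ) (hS : ∀ t ∈ S, val D t = 0) :
    S.card ≤ d := by
  classical
  have h0 := den_ne h
  have h1 : S ⊆ (D.map (Int.castRingHom ℚ)).roots.toFinset := by
    intro t ht
    rw [Multiset.mem_toFinset, mem_roots h0, IsRoot.def, ← val_eq]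
    exact hS t ht
  refine (Finset.card_le_card h1).trans ((Multiset.toFinset_card_le _).trans
    ((Polynomial.card_roots' _).trans ?_))
  rw [Polynomial.natDegree_map_eq_of_injective (RingHom.injective_int _)]
  exact h.deg_den

lemma fibre {d : ℕ} {A D : ℤ[X]} (h : IsFun d A D) (j : ℚ) (S : Finset ℚ)
    (hS : ∀ t ∈ S, val D t ≠ 0 ∧ val A t / val D t = j) : S.card ≤ d := by
  classical
  have hinj : Function.Injective (Int.castRingHom ℚ) := RingHom.injective_int _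
  obtain ⟨F, hF⟩ : ∃ F : ℚ[X], F = A.map (Int.castRingHom ℚ) - C j * D.map (Int.castRingHom ℚ) :=
    ⟨_, rfl⟩
  have hF0 : F ≠ 0 := by
    intro h0
    rw [hF, sub_eq_zero] at h0
    have h1 := h.coprime
    rw [h0] at h1
    have h2 : IsUnit (D.map (Int.castRingHom ℚ)) := by
      have h3 : IsCoprime (D.map (Int.castRingHom ℚ)) (D.map (Int.castRingHom ℚ)) :=
        h1.of_mul_left_right
      exact isCoprime_self.1 h3
    have h3 := Polynomial.natDegree_eq_zero_of_isUnit h2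
    have h4 : D.natDegree = 0 := by
      rwa [Polynomial.natDegree_map_eq_of_injective hinj] at h3
    have h5 : (A.map (Int.castRingHom ℚ)).natDegree ≤ 0 := by
      rw [h0]
      refine (Polynomial.natDegree_C_mul_le _ _).trans ?_
      rw [h3]
    rw [Polynomial.natDegree_map_eq_of_injective hinj] at h5
    have := h.pos
    rcases h.deg with h6 | h6 <;> omega
  have hdeg : F.natDegree ≤ d := by
    rw [hF]
    refine (Polynomial.natDegree_sub_le _ _).trans (max_le ?_ ?_)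
    · rw [Polynomial.natDegree_map_eq_of_injective hinj]
      exact h.deg_num
    · refine (Polynomial.natDegree_C_mul_le _ _).trans ?_
      rw [Polynomial.natDegree_map_eq_of_injective hinj]
      exact h.deg_den
  have h1 : S ⊆ F.roots.toFinset := by
    intro t ht
    obtain ⟨g1, g2⟩ := hS t ht
    rw [Multiset.mem_toFinset, mem_roots hF0, IsRoot.def, hF]
    rw [eval_sub, eval_mul, eval_C, ← val_eq, ← val_eq, ← g2]
    field_simp
    ring
  exact (Finset.card_le_card h1).trans ((Multiset.toFinset_card_le _).trans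
    ((Polynomial.card_roots' _).trans hdeg))

lemma box_finite (B : ℕ) : {t : ℚ | |t.num| ≤ B ∧ t.den ≤ B}.Finite := by
  have h1 : Set.MapsTo (fun t : ℚ => (t.num, t.den)) {t : ℚ | |t.num| ≤ B ∧ t.den ≤ B}
      ((Set.Icc (-(B : ℤ)) B) ×ˢ (Set.Icc 0 B)) := by
    rintro t ⟨g1, g2⟩
    rw [abs_le] at g1
    exact ⟨g1, Nat.zero_le _, g2⟩
  refine Set.Finite.of_injOn h1 ?_ ((Set.finite_Icc _ _).prod (Set.finite_Icc _ _))
  intro t _ t' _ h
  rw [Prod.mk.injEq] at h
  exact Rat.ext h.1 h.2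

/-- **the members of a family with a rare invariant are rare** -/
theorem fam_count {Bd : ℚ → Prop} {σ : ℝ} (hσ : 0 ≤ σ)
    (hcount : ∀ ε : ℝ, 0 < ε → ∃ C : ℝ, 0 < C ∧ ∀ H : ℝ, 1 ≤ H → ∀ s : Finset ℚ,
      (∀ j ∈ s, (ht j : ℝ) ≤ H ∧ Bd j) → (s.card : ℝ) ≤ C * H ^ (σ + ε))
    {d : ℕ} {A D : ℤ[X]} (h : IsFun d A D) (ε : ℝ) (hε : 0 < ε) :
    ∃ C : ℝ, ∀ B : ℕ, 1 ≤ B → ({t : ℚ | |t.num| ≤ B ∧ t.den ≤ B ∧
      ¬ (val D t ≠ 0 ∧ ¬ Bd (val A t / val D t))}.ncard : ℝ) ≤ C * (B : ℝ) ^ (d * σ + ε) := by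
  classical
  have hd1 : (1 : ℝ) ≤ d := by exact_mod_cast h.pos
  have hd0 : (0 : ℝ) < d := by linarith
  obtain ⟨C, hC, hcnt⟩ := hcount (ε / d) (by positivity)
  obtain ⟨C0, hC0, hht⟩ := ht_le h
  refine ⟨d + d * (C * C0 ^ (σ + ε / d)), fun B hB => ?_⟩
  have hB1 : (1 : ℝ) ≤ B := by exact_mod_cast hB
  have hB0 : (0 : ℝ) < B := by linarith
  set T : Finset ℚ := (box_finite B).toFinset with hT
  have hmemT : ∀ t : ℚ, t ∈ T ↔ (|t.num| ≤ B ∧ t.den ≤ B) := by
    intro t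
    rw [hT, Set.Finite.mem_toFinset]
    rfl
  set T1 := T.filter fun t => val D t = 0 with hT1
  set T2 := T.filter fun t => val D t ≠ 0 ∧ Bd (val A t / val D t) with hT2
  have hset : {t : ℚ | |t.num| ≤ B ∧ t.den ≤ B ∧
      ¬ (val D t ≠ 0 ∧ ¬ Bd (val A t / val D t))} ⊆ ((T1 ∪ T2 : Finset ℚ) : Set ℚ) := by
    rintro t ⟨g1, g2, g3⟩
    rw [Finset.mem_coe, Finset.mem_union, hT1, hT2, Finset.mem_filter, Finset.mem_filter, hmemT]
    by_cases h0 : val D t = 0
    · exact Or.inl ⟨⟨g1, g2⟩, h0⟩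
    · refine Or.inr ⟨⟨g1, g2⟩, h0, ?_⟩
      by_contra hcon
      exact g3 ⟨h0, hcon⟩
  have hle1 : ({t : ℚ | |t.num| ≤ B ∧ t.den ≤ B ∧
      ¬ (val D t ≠ 0 ∧ ¬ Bd (val A t / val D t))}.ncard : ℝ) ≤ (T1.card : ℝ) + (T2.card : ℝ) := by
    have h1 := Set.ncard_le_ncard hset (Finset.finite_toSet _)
    rw [Set.ncard_coe_finset] at h1
    have h2 := h1.trans (Finset.card_union_le _ _)
    exact_mod_cast h2
  have hc1 : (T1.card : ℝ) ≤ d := by
    exact_mod_cast zeros h T1 fun t ht => (Finset.mem_filter.1 ht).2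
  have hc2 : (T2.card : ℝ) ≤ d * ((T2.image fun t => val A t / val D t).card : ℝ) := by
    have h1 := Finset.card_le_mul_card_image (s := T2) (f := fun t => val A t / val D t) d
      (fun j _ => by
        apply fibre h j
        intro t ht
        rw [Finset.mem_filter, hT2, Finset.mem_filter] at ht
        exact ⟨ht.1.2.1, ht.2⟩)
    exact_mod_cast h1
  have hBd1 : (1 : ℝ) ≤ (B : ℝ) ^ d := one_le_pow₀ hB1
  have hH1 : 1 ≤ C0 * (B : ℝ) ^ d := one_le_mul_of_one_le_of_one_le hC0 hBd1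
  have hc3 : ((T2.image fun t => val A t / val D t).card : ℝ) ≤
      C * (C0 * (B : ℝ) ^ d) ^ (σ + ε / d) := by
    apply hcnt _ hH1
    intro j hj
    rw [Finset.mem_image] at hj
    obtain ⟨t, ht, rfl⟩ := hj
    rw [hT2, Finset.mem_filter, hmemT] at ht
    obtain ⟨⟨g1, g2⟩, g3, g4⟩ := ht
    refine ⟨hht B t hB1 ?_ ?_ g3, g4⟩
    · exact_mod_cast g1
    · exact_mod_cast g2
  have e1 : (C0 * (B : ℝ) ^ d) ^ (σ + ε / d) = C0 ^ (σ + ε / d) * (B : ℝ) ^ (d * σ + ε) := by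
    rw [Real.mul_rpow (by linarith) (by positivity), ← Real.rpow_natCast, ← Real.rpow_mul hB0.le]
    congr 2
    field_simp
  rw [e1] at hc3
  have hBe : (1 : ℝ) ≤ (B : ℝ) ^ (d * σ + ε) := Real.one_le_rpow hB1 (by positivity)
  calc _ ≤ (T1.card : ℝ) + (T2.card : ℝ) := hle1
    _ ≤ d * (B : ℝ) ^ (d * σ + ε) + d * (C * (C0 ^ (σ + ε / d) * (B : ℝ) ^ (d * σ + ε))) := by
        refine add_le_add (hc1.trans ?_) (hc2.trans (mul_le_mul_of_nonneg_left hc3 hd0.le))
        exact le_mul_of_one_le_right hd0.le hBe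
    _ = _ := by ring

end Pool.Agent.Seat74.BM
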